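import Mathlib
import Pool.Agent.H48Z.RRb

set_option autoImplicit false
open Classical

namespace Pool.Agent.H872Z.RankRamsey

theorem rank_add_le' {n : ℕ} (A B : Matrix (Fin n) (Fin n) ℝ) :
    (A + B).rank ≤ A.rank + B.rank := by
  unfold Matrix.rank
  rw [Matrix.mulVecLin_add]
  refine le_trans (Submodule.finrank_mono (LinearMap.range_add_le _ _)) ?_
  exact Submodule.finrank_add_le_finrank_add_finrank _ _

theorem compl_rank {n : ℕ} (G : SimpleGraph (Fin n)) :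
    ((Gᶜ).adjMatrix ℝ).rank ≤ 1 + (G.adjMatrix ℝ + 1).rank := by
  have e : (Gᶜ).adjMatrix ℝ = Matrix.vecMulVec (fun _ : Fin n => (1 : ℝ)) (fun _ : Fin n => (1 : ℝ)) +
      (-1 : Matrix (Fin n) (Fin n) ℝ) * (G.adjMatrix ℝ + 1) := by
    ext i j
    rw [neg_one_mul]
    by_cases h : i = j
    · subst h
      simp [Matrix.vecMulVec_apply]
    · by_cases h2 : G.Adj i j
      · simp [Matrix.vecMulVec_apply, h, h2]
      · simp [Matrix.vecMulVec_apply, h, h2]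
  rw [e]
  refine (rank_add_le' _ _).trans (Nat.add_le_add (Matrix.rank_vecMulVec_le _ _) ?_)
  exact Matrix.rank_mul_le_right _ _

/-- There exist c>0 and C such that for every n≥1 some triangle-free graph on n vertices has complement whose real adjacency matrix has rank at most C·n^(1−c), i.e. ν_2(n)=O(n^(1−c)). -/
theorem complement_form :
    ∃ c : ℝ, 0 < c ∧ ∃ C : ℝ, 0 < C ∧
      ∀ n : ℕ, 1 ≤ n →
        ∃ G : SimpleGraph (Fin n), G.CliqueFree 3 ∧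
          (((Gᶜ).adjMatrix ℝ).rank : ℝ) ≤ C * (n : ℝ) ^ (1 - c) := by
  obtain ⟨a, ha⟩ := Pool.Agent.H48Z.RR.core
  have ha2 : (0 : ℝ) < (a : ℝ) + 2 := by positivity
  refine ⟨2 / ((a : ℝ) + 2), by positivity, 1 + 2 ^ a * 3, by positivity, ?_⟩
  have hγ : 1 - 2 / ((a : ℝ) + 2) = a / ((a : ℝ) + 2) := by field_simp; ring
  rw [hγ]
  set γ : ℝ := a / ((a : ℝ) + 2) with hγdef
  have hγ0 : 0 ≤ γ := by positivity
  have hγ1 : γ ≤ 1 := by rw [hγdef, div_le_one ha2]; linarith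
  intro m hm
  set b : ℕ := 2 ^ (a + 2) with hb
  have hb1 : 1 < b := Nat.one_lt_two_pow (by omega)
  set t := Nat.clog b (3 * m) with ht
  have h1 : 3 * m ≤ b ^ t := Nat.le_pow_clog hb1 _
  have h2 : b ^ (t - 1) < 3 * m := Nat.pow_pred_clog_lt_self hb1 (by omega)
  have h3 : 8 * m ^ 2 ≤ (4 ^ (a + 2)) ^ t := by
    have : (4 ^ (a + 2)) ^ t = (b ^ t) ^ 2 := by
      rw [hb, show (4 : ℕ) = 2 ^ 2 from rfl, ← pow_mul, ← pow_mul, ← pow_mul, ← pow_mul]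
      congr 1
      ring
    rw [this]
    nlinarith
  obtain ⟨G, hG1, hG2⟩ := ha t m hm h3
  refine ⟨G, hG1, ?_⟩
  have h4 : ((Gᶜ).adjMatrix ℝ).rank ≤ 1 + (2 ^ a) ^ t := by
    refine (compl_rank G).trans (Nat.add_le_add_left ?_ 1)
    convert hG2
  have h5 : (2 ^ a) ^ t ≤ 2 ^ a * (2 ^ a) ^ (t - 1) := by
    rw [← pow_succ']
    exact Nat.pow_le_pow_right (by positivity) (by omega)
  have h6 : ((2 : ℝ) ^ a) ^ (t - 1) = (((b ^ (t - 1) : ℕ) : ℝ)) ^ γ := by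
    rw [hb]
    push_cast
    rw [← pow_mul, ← pow_mul, ← Real.rpow_natCast, ← Real.rpow_natCast,
      ← Real.rpow_mul (by norm_num)]
    congr 1
    rw [hγdef]
    push_cast
    field_simp
  have h7 : (((b ^ (t - 1) : ℕ) : ℝ)) ^ γ ≤ ((3 : ℝ) * m) ^ γ :=
    Real.rpow_le_rpow (by positivity) (by exact_mod_cast h2.le) hγ0
  have h8 : ((3 : ℝ) * m) ^ γ ≤ 3 * (m : ℝ) ^ γ := by
    rw [Real.mul_rpow (by norm_num) (by positivity)]
    refine mul_le_mul_of_nonneg_right ?_ (by positivity)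
    calc (3 : ℝ) ^ γ ≤ 3 ^ (1 : ℝ) := Real.rpow_le_rpow_of_exponent_le (by norm_num) hγ1
      _ = 3 := Real.rpow_one _
  have h9 : (1 : ℝ) ≤ (m : ℝ) ^ γ := Real.one_le_rpow (by exact_mod_cast hm) hγ0
  have h10 : ((Gᶜ).adjMatrix ℝ).rank ≤ 1 + 2 ^ a * (2 ^ a) ^ (t - 1) :=
    h4.trans (Nat.add_le_add_left h5 1)
  calc (((Gᶜ).adjMatrix ℝ).rank : ℝ) ≤ ((1 + 2 ^ a * (2 ^ a) ^ (t - 1) : ℕ) : ℝ) := by
        exact_mod_cast h10
    _ = 1 + 2 ^ a * ((2 : ℝ) ^ a) ^ (t - 1) := by push_cast; ring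
    _ ≤ (m : ℝ) ^ γ + 2 ^ a * (3 * (m : ℝ) ^ γ) := by
        rw [h6]
        exact add_le_add h9 (mul_le_mul_of_nonneg_left (h7.trans h8) (by positivity))
    _ = (1 + 2 ^ a * 3) * (m : ℝ) ^ γ := by ring

end Pool.Agent.H872Z.RankRamsey
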