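import Mathlib

set_option autoImplicit false

namespace Pool.Agent.H872Z.Tri235

def W : List (List Bool) := [[], [false], [true], [false, true], [true, false], [true, true], [false, true, false], [false, true, true], [true, false, true], [true, true, false], [false, true, false, true], [false, true, true, false], [true, false, true, false], [true, false, true, true], [true, true, false, true], [false, true, false, true, false], [false, true, false, true, true], [false, true, true, false, true], [true, false, true, false, true], [true, false, true, true, false], [true, true, false, true, false], [true, true, false, true, true], [false, true, false, true, false, true], [false, true, false, true, true, false], [false, true, true, false, true, false], [false, true, true, false, true, true], [true, false, true, false, true, true], [true, false, true, true, false, true], [true, true, false, true, false, true], [false, true, false, true, false, true, true], [false, true, false, true, true, false, true], [false, true, true, false, true, false, true], [true, false, true, false, true, true, false], [true, false, true, true, false, true, false], [true, false, true, true, false, true, true], [true, true, false, true,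 false, true, true], [false, true, false, true, false, true, true, false], [false, true, false, true, true, false, true, false], [false, true, false, true, true, false, true, true], [false, true, true, false, true, false, true, true], [true, false, true, false, true, true, false, true], [true, false, true, true, false, true, false, true], [true, true, false, true, false, true, true, false], [false, true, false, true, false, true, true, false, true], [false, true, false, true, true, false, true, false, true], [false, true, true, false, true, false, true, true, false], [true, false, true, false, true, true, false, true, false], [true, false, true, false, true, true, false, true, true], [true, false, true, true, false, true, false, true, true], [true, true, false, true, false, true, true, false, true], [false, true, false, true, false, true, true, false, true, false], [false, true, false, true, false, true, true, false, true, true], [false, true, false, true, true, false, true, false, true, true], [false, true, true, false, true, false, true, true, false, true], [true, false, true, true, false, true, false, true, true, false], [true, true, false, true, false, true, true, false, true, false], [false, true, false,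 true, true, false, true, false, true, true, false], [false, true, true, false, true, false, true, true, false, true, false], [true, false, true, true, false, true, false, true, true, false, true], [false, true, false, true, true, false, true, false, true, true, false, true]]
def TX : List Nat := [1, 0, 4, 6, 2, 9, 3, 11, 12, 5, 15, 7, 8, 19, 20, 10, 23, 24, 25, 13, 14, 22, 21, 16, 17, 18, 32, 33, 34, 36, 37, 38, 26, 27, 28, 42, 29, 30, 31, 45, 46, 47, 35, 50, 51, 39, 40, 41, 54, 55, 43, 44, 56, 57, 48, 49, 52, 53, 59, 58]
def TY : List Nat := [2, 3, 5, 7, 8, 0, 10, 1, 13, 14, 16, 17, 18, 4, 21, 22, 6, 25, 26, 27, 28, 9, 29, 30, 31, 11, 12, 34, 35, 15, 38, 39, 40, 41, 19, 20, 43, 44, 23, 24, 47, 48, 49, 51, 52, 53, 45, 32, 33, 50, 42, 36, 37, 46, 58, 54, 59, 56, 55, 57]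
def tree : List (Nat × Bool) := [(0, false), (0, true), (1, true), (2, false), (2, true), (3, false), (3, true), (4, true), (5, false), (6, true), (7, false), (8, false), (8, true), (9, true), (10, false), (10, true), (11, true), (12, true), (13, false), (14, false), (14, true), (15, true), (16, false), (17, false), (17, true), (18, true), (19, true), (20, true), (22, true), (23, true), (24, true), (26, false), (27, false), (27, true), (28, true), (29, false), (30, false), (30, true), (31, true), (32, true), (33, true), (35, false), (36, true), (37, true), (39, false), (40, false), (40, true), (41, true), (42, true), (43, false), (43, true), (44, true), (45, true), (48, false), (49, false), (52, false), (53, false), (54, true), (56, true)]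
def cert : List (Nat × Bool × Nat) := [(1, false, 0), (4, false, 0), (5, true, 1), (6, false, 0), (7, true, 1), (9, false, 0), (11, false, 0), (12, false, 0), (13, true, 1), (15, false, 0), (16, true, 1), (19, false, 0), (20, false, 0), (21, true, 1), (22, false, 3), (23, false, 0), (24, false, 0), (25, true, 1), (26, true, 1), (29, true, 1), (32, false, 0), (33, false, 0), (34, true, 1), (35, true, 1), (36, false, 0), (37, false, 0), (38, true, 1), (39, true, 1), (42, false, 0), (45, false, 0), (46, false, 0), (47, true, 1), (48, true, 1), (50, false, 0), (51, true, 1), (52, true, 1), (54, false, 0), (55, false, 0), (56, false, 0), (57, false, 0), (18, false, 3), (21, false, 0), (25, false, 0), (28, false, 3), (31, false, 3), (34, false, 0), (38, false, 0), (41, false, 3), (44, false, 3), (46, true, 2), (47, false, 0), (50, true, 2), (51, false, 0), (53, true, 1), (55, true, 2), (57, true, 2), (58, true, 1), (59, true, 1), (49, true, 1), (58, false, 3), (59, false, 0)]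

def rels : List (List Bool) :=
  [[false], [true, true], [false, true, false, true, false, true, false, true, false],
   [true, false, true, false, true, false, true, false, true]]

def T (i : Nat) (g : Bool) : Nat := if g then TY.getD i 0 else TX.getD i 0

def walk (K : List (Nat × Bool)) : Nat → List Bool → Option Nat
  | j, [] => some j
  | j, h :: v => if (j, h) ∈ K then walk K (T j h) v else none

def lastOK (g : Bool) (r : Nat) : Bool :=
  (r == 0 && !g) || (r == 1 && g) || (r == 2 && g) || (r == 3 && !g)

def run : List (Nat × Bool) → List (Nat × Bool × Nat) → Option (List (Nat × Bool))
  | K, [] => some K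
  | K, (i, g, r) :: c =>
    if lastOK g r && (walk K (T i g) (rels.getD r []) == some i) then run ((i, g) :: K) c else none

section
variable {G : Type*} [Group G] (x y : G)

def gen (g : Bool) : G := if g then y else x

def ev (w : List Bool) : G := (w.map (gen x y)).prod

def t (i : Nat) : G := ev x y (W.getD i [])

def Good (e : Nat × Bool) : Prop := t x y e.1 * gen x y e.2 = t x y (T e.1 e.2)

theorem walk_sound (K : List (Nat × Bool)) (hK : ∀ e ∈ K, Good x y e) :
    ∀ (v : List Bool) (j i : Nat), walk K j v = some i → t x y j * ev x y v = t x y i := by
  intro v
  induction v with
  | nil => intro j i h; simp [walk] at h; simp [ev, h]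
  | cons a v ih =>
    intro j i h
    simp only [walk] at h
    split_ifs at h with hm
    have h1 := hK _ hm
    have h2 := ih _ _ h
    simp only [Good] at h1
    rw [← h2, ← h1]
    simp [ev, mul_assoc]

variable (hx : x ^ 2 = 1) (hy : y ^ 3 = 1) (hxy : (x * y) ^ 5 = 1)
include hx hy hxy

theorem rel_sound (g : Bool) (r : Nat) (h : lastOK g r = true) :
    ev x y (rels.getD r []) * gen x y g = 1 := by
  have hyx : (y * x) ^ 5 = 1 := by
    have : (y * x) ^ 5 = x⁻¹ * (x * y) ^ 5 * x := by
      simp only [pow_succ, pow_zero]; group
    rw [this, hxy]; simp
  simp only [lastOK, Bool.or_eq_true, Bool.and_eq_true, beq_iff_eq, Bool.not_eq_true'] at h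
  rcases h with ((⟨rfl, rfl⟩ | ⟨rfl, rfl⟩) | ⟨rfl, rfl⟩) | ⟨rfl, rfl⟩
  · simpa [ev, gen, rels, pow_succ] using hx
  · simpa [ev, gen, rels, pow_succ, mul_assoc] using hy
  · simpa [ev, gen, rels, pow_succ, mul_assoc] using hxy
  · simpa [ev, gen, rels, pow_succ, mul_assoc] using hyx

theorem run_sound : ∀ (c : List (Nat × Bool × Nat)) (K L : List (Nat × Bool)),
    (∀ e ∈ K, Good x y e) → run K c = some L → ∀ e ∈ L, Good x y e := by
  intro c
  induction c with
  | nil => intro K L hK h; simp [run] at h; subst h; exact hK
  | cons a c ih =>
    intro K L hK h
    obtain ⟨i, g, r⟩ := a
    simp only [run] at h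
    split_ifs at h with hm
    simp only [Bool.and_eq_true, beq_iff_eq] at hm
    refine ih _ _ ?_ h
    intro e he
    rcases List.mem_cons.1 he with rfl | he
    · have h1 := walk_sound x y K hK _ _ _ hm.2
      have h2 := rel_sound x y hx hy hxy g r hm.1
      simp only [Good]
      rw [← h1, mul_assoc, h2, mul_one]
    · exact hK e he

omit hx hy hxy in
theorem tree_good : ∀ e ∈ tree, Good x y e := by
  have : ∀ e ∈ tree, W.getD (T e.1 e.2) [] = W.getD e.1 [] ++ [e.2] := by decide +kernel
  intro e he
  simp only [Good, t, this e he]
  simp [ev]

theorem all_good : ∀ i < 60, ∀ g, Good x y (i, g) := by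
  have h : ∃ L, run tree cert = some L ∧ ∀ i < 60, ∀ g, (i, g) ∈ L := by
    refine ⟨(run tree cert).getD [], ?_, ?_⟩
    · decide +kernel
    · decide +kernel
  obtain ⟨L, h1, h2⟩ := h
  intro i hi g
  exact run_sound x y hx hy hxy _ _ _ (tree_good x y) h1 _ (h2 i hi g)

theorem mem_range (a : G) (ha : a ∈ Subgroup.closure ({x, y} : Set G)) :
    ∃ i < 60, a = t x y i := by
  have hT : ∀ i < 60, ∀ g, T i g < 60 := by decide +kernel
  have step : ∀ (g : Bool) (b : G), (∃ i < 60, b = t x y i) → ∃ i < 60, b * gen x y g = t x y i := by
    rintro g b ⟨i, hi, rfl⟩
    exact ⟨T i g, hT i hi g, all_good x y hx hy hxy i hi g⟩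
  induction ha using Subgroup.closure_induction_right with
  | one => exact ⟨0, by norm_num, by simp [t, W, ev]⟩
  | mul_right a _ b hb ih =>
    rcases hb with rfl | rfl
    · exact step false a ih
    · exact step true a ih
  | mul_inv_cancel a _ b hb ih =>
    rcases hb with rfl | rfl
    · have : b⁻¹ = b := by
        rw [inv_eq_iff_mul_eq_one, ← pow_two, hx]
      rw [this]; exact step false a ih
    · have : b⁻¹ = b * b := by
        rw [inv_eq_iff_mul_eq_one, ← mul_assoc, ← pow_three', hy]
      rw [this, ← mul_assoc]
      exact step true _ (step true a ih)

theorem card_le (htop : Subgroup.closure ({x, y} : Set G) = ⊤) : Nat.card G ≤ 60 := by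
  have hs : Function.Surjective (fun i : Fin 60 => t x y i.1) := by
    intro a
    obtain ⟨i, hi, h⟩ := mem_range x y hx hy hxy a (by rw [htop]; trivial)
    exact ⟨⟨i, hi⟩, h.symm⟩
  simpa using Nat.card_le_card_of_surjective _ hs

end

end Pool.Agent.H872Z.Tri235
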